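import Pool.Agent.L0h45.AV.Stm3
import Pool.Agent.L0h55.AV.RNK

/-!
# Project AV, module RNSn: the Selmer group and the tuples, negative `a` as well (adapted from `L0h34/AV/RNS.lean`)
-/

set_option autoImplicit false
set_option linter.all false

open Finset IsDedekindDomain NumberField Polynomial
open scoped Classical

namespace Pool.Agent.L0h88.AV

open Pool.Agent.TH115.GD
open Pool.Agent.N874.PP (Tup chA chB gq tau Ev sW IsBeta Rt S_GB S_GN S_GT)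
open Pool.Agent.N922.PQ (dsc IsCub vec Loc2)
open Pool.Agent.L0h45.AR (crv cub Alg th)
open Pool.Agent.L0h45.AV

/-- **RNSn** -/
theorem t_RNSn : S_RDXn → S_REXn → S_RLM → S_RLI → S_RLC → S_SEV → S_SE2 → S_S8S → S_SBM → S_GB → S_GN →
    S_GT → S_RNSn := by
  intro hRDX hREX hRLM hRLI hRLC hSEV hSE2 hS8S hSBM hGB hGN hGT a b ha hao hsq U hU hinc
  have hbo := Pool.Agent.L0h55.AV.odd_b hao hsq
  have hΔ : 4 * a ^ 3 + 27 * b ^ 2 ≠ 0 := hsq.ne_zero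
  have hirr : Irreducible (X ^ 3 + C (a : ℚ) * X + C (b : ℚ) : ℚ[X]) :=
    Pool.Agent.L0h55.AV.cub_irr hao hbo
  obtain ⟨L, iF, iN, θ, hc, -⟩ := Pool.Agent.L0h55.AV.exists_cub (Pool.Agent.L0h55.AV.cub_irr hao hbo)
  have h6 : (6 : ℚ) ≠ 0 := by norm_num
  have hΔQ : 4 * (a : ℚ) ^ 3 + 27 * (b : ℚ) ^ 2 ≠ 0 := by exact_mod_cast hΔ
  have hRt : Rt (a : ℚ) (b : ℚ) θ := by
    unfold Rt
    rw [map_intCast, map_intCast]
    exact hc.root
  -- the trivial classes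
  have hdb : (U.filter (fun f => Coh a b f (fun _ => 0))).card ≤ 1 := by
    rw [card_le_one]
    intro f hf g hg
    rw [mem_filter] at hf hg
    obtain ⟨hf1, T, hT, hfT⟩ := hf
    obtain ⟨hg1, T', hT', hgT⟩ := hg
    by_contra hne
    apply hinc f hf1 g hg1 hne
    refine ⟨T - T', ?_, ?_⟩
    · rw [smul_sub, hT, hT', sub_zero]
    · intro σ
      have e1 := hfT σ
      have e2 := hgT σ
      simp only [sub_zero] at e1 e2
      rw [e1, e2, map_sub]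
      abel
  obtain ⟨U₁, hU₁⟩ : ∃ U₁, U₁ = U.filter (fun f => ¬ Coh a b f (fun _ => 0)) := ⟨_, rfl⟩
  have hU₁c : U.card ≤ U₁.card + 1 := by
    have h1 := card_filter_add_card_filter_not (s := U) (fun f => Coh a b f (fun _ => 0))
    rw [← hU₁] at h1
    omega
  -- the tuples
  have hform : ∀ f ∈ U₁, ∃ B : Tup ℤ, ∃ (β : Sep ℚ → Sep ℚ) (h : ℚ[X]), IsBeta (a : ℚ) (b : ℚ) f β ∧
      (∀ t : Sep ℚ, Rt (a : ℚ) (b : ℚ) t → aeval t h = β t ^ 2) ∧ aeval θ h ≠ 0 ∧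
        Rel hc (aeval θ h) B ∧ Red B ∧ Sol8 B ∧ B.x ≠ 0 ∧ chA B = a ∧ chB B = b := by
    intro f hf
    rw [hU₁, mem_filter] at hf
    obtain ⟨hf1, hf2⟩ := hf
    have hs := hU f hf1
    obtain ⟨hcoc, h2, hloc⟩ := hU f hf1
    obtain ⟨β, hβ⟩ := hGB ℚ (a : ℚ) (b : ℚ) h6 hΔQ hirr f hcoc h2
    obtain ⟨h, hh, hhL⟩ := hGN ℚ (a : ℚ) (b : ℚ) h6 hΔQ hirr f hcoc h2 β hβ
    obtain ⟨hα, hNs⟩ := hhL L θ hRt hc.rank
    have hns : ¬ IsSquare (aeval θ h) := by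
      intro hq
      obtain ⟨T, hT, hfT⟩ := hGT ℚ (a : ℚ) (b : ℚ) h6 hΔQ hirr f hcoc h2 β h hβ hh L θ hRt hc.rank hq
      exact hf2 ⟨T, hT, fun σ => by simp only [sub_zero]; exact hfT σ⟩
    have hev := hSEV L (𝓞 L) a b θ hc hsq hao f hs β h hβ hh hα hNs
    have hl2 := hSE2 L a b θ hc hao hbo hΔ f hs β h hβ hh
    obtain ⟨B₀, hB₀⟩ := hREX L (𝓞 L) a b θ hc ha hsq (aeval θ h) hα hNs hev
    obtain ⟨B, hB, hred⟩ := hRDX (fun B => Rel hc (aeval θ h) B)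
      (fun B hB => hRLM L a b θ hc _ B hB) (fun B hB => by
        obtain ⟨h3, h4, h5⟩ := hRLC L a b θ hc _ B hα hB
        exact ⟨h5 hNs hns, by rw [h3, h4]; exact ha⟩) B₀ hB₀
    obtain ⟨h3, h4, h5⟩ := hRLC L a b θ hc _ B hα hB
    exact ⟨B, β, h, hβ, hh, hα, hB, hred, hS8S L a b θ hc _ B hao hbo hα hB h3 h4 hl2, h5 hNs hns, h3, h4⟩
  haveI : Nonempty (Tup ℤ) := ⟨⟨0, 0, 0, 0, 0⟩⟩
  choose! Fm hFm using hform
  have hkey : ∀ f ∈ U₁, ∀ g ∈ U₁, Fm f = Fm g → f = g := by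
    intro f hf g hg he
    obtain ⟨β, h, hβ, hh, hα, hR, -, -, -, -, -⟩ := hFm f hf
    obtain ⟨γ, k, hγ, hk, hα', hR', -, -, -, -, -⟩ := hFm g hg
    rw [← he] at hR'
    rw [hU₁, mem_filter] at hf hg
    obtain ⟨hcf, h2f, -⟩ := hU f hf.1
    obtain ⟨hcg, h2g, -⟩ := hU g hg.1
    by_contra hne
    have h1 := hRLI L a b θ hc _ _ _ hα hα' hR hR'
    have hfg : IsCoc (sW (a : ℚ) (b : ℚ)) (fun σ => f σ - g σ) := by
      refine ⟨hcf.lc.sub hcg.lc, ?_⟩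
      intro σ τ
      show f (σ * τ) - g (σ * τ) = f σ - g σ + act (sW (a : ℚ) (b : ℚ)) (rs ℚ σ) (f τ - g τ)
      rw [hcf.mul, hcg.mul, map_sub]
      abel
    obtain ⟨T, hT, hfT⟩ := hGT ℚ (a : ℚ) (b : ℚ) h6 hΔQ hirr (fun σ => f σ - g σ) hfg
      (fun σ => by
        show (2 : ℕ) • (f σ - g σ) = 0
        rw [smul_sub, h2f, h2g, sub_zero])
      (fun t => β t * γ t) (h * k) (hSBM a b f g β γ hΔ h2f h2g hβ hγ)
      (fun t ht => by rw [map_mul, hh t ht, hk t ht]; ring) L θ hRt hc.rank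
      (by rw [map_mul]; exact h1)
    exact hinc f hf.1 g hg.1 hne ⟨T, hT, hfT⟩
  refine ⟨U₁.image Fm, ?_, ?_⟩
  · rw [card_image_of_injOn]
    · exact hU₁c
    · intro f hf g hg h
      rw [mem_coe] at hf hg
      exact hkey f hf g hg h
  · intro B hB
    rw [mem_image] at hB
    obtain ⟨f, hf, rfl⟩ := hB
    obtain ⟨β, h, -, -, -, -, hred, hsol, hx, hA, hB'⟩ := hFm f hf
    exact ⟨hx, hA, hB', hred, hsol⟩

end Pool.Agent.L0h88.AV

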